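import Pool.Agent.Helper14.AT.FrameA
import Pool.Agent.Helper43.BL2.Defs

/-!
Project AAB v2 (MP_b8862a_ag), block B5: the `ℓ-adic` data with the theorem of Serre and Pink (the tensors fixed by all the
Hodge-Tate cocharacters are fixed by a subgroup of finite index).
-/

set_option linter.unusedSectionVars false

open Matrix Module GH

namespace MH

variable {n : Type*} [Fintype n] [DecidableEq n]

variable {w : ℤ} {Q : Matrix n n ℚ} {S : Finset ℤ} {P : ℤ → Matrix n n ℂ} {Γ : Subgroup (GL n ℂ)}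

theorem IsGalG.toA (G : IsGalG w Q S P Γ) : IsGalA w Q S P Γ :=
  ⟨G.sim, G.semi, G.conj, fun a b t h _ => G.gen a b t h⟩

theorem IsGalG.toN (G : IsGalG w Q S P Γ) : IsGalN w Q S P Γ := G.toA.toN

/-- what commutes with `h_R` commutes with the projections -/
theorem IsHTw.comm_of_hR27 {S' : Finset ℤ} {R : ℤ → Matrix n n ℂ} (hR' : IsHTw w Q S' Γ R) {T : Matrix n n ℂ}
    (hT : T * hR S' R = hR S' R * T) (p : ℤ) : T * R p = R p * T := by
  have e1 : ∀ q, hR S' R * R q = (q : ℂ) • R q := by
    intro q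
    unfold hR
    rw [Finset.sum_mul]
    by_cases hq : q ∈ S'
    · rw [Finset.sum_eq_single_of_mem q hq]
      · rw [smul_mul_assoc, hR'.mul, if_pos rfl]
      · intro b _ hb
        rw [smul_mul_assoc, hR'.mul, if_neg hb, smul_zero]
    · rw [hR'.supp q hq, smul_zero]
      exact Finset.sum_eq_zero fun b _ => by rw [mul_zero]
  have e2 : ∀ q, R q * hR S' R = (q : ℂ) • R q := by
    intro q
    unfold hR
    rw [Finset.mul_sum]
    by_cases hq : q ∈ S'
    · rw [Finset.sum_eq_single_of_mem q hq]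
      · rw [mul_smul_comm, hR'.mul, if_pos rfl]
      · intro b _ hb
        rw [mul_smul_comm, hR'.mul, if_neg (Ne.symm hb), smul_zero]
    · rw [hR'.supp q hq, smul_zero]
      exact Finset.sum_eq_zero fun b _ => by rw [mul_smul_comm, zero_mul, smul_zero]
  have e3 : ∀ p q, p ≠ q → R p * T * R q = 0 := by
    intro p q hpq
    have h1 : R p * (T * hR S' R) * R q = R p * (hR S' R * T) * R q := by rw [hT]
    have h2 : R p * (T * hR S' R) * R q = (q : ℂ) • (R p * T * R q) := by
      rw [← mul_assoc, mul_assoc (R p * T), e1, mul_smul_comm]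
    have h3 : R p * (hR S' R * T) * R q = (p : ℂ) • (R p * T * R q) := by
      rw [← mul_assoc, e2, smul_mul_assoc, smul_mul_assoc]
    rw [h2, h3] at h1
    have h4 : ((q : ℂ) - p) • (R p * T * R q) = 0 := by rw [sub_smul, h1, sub_self]
    rcases smul_eq_zero.1 h4 with h5 | h5
    · exact absurd (by exact_mod_cast (sub_eq_zero.1 h5).symm) hpq
    · exact h5
  by_cases hp : p ∈ S'
  · have h1 : T * R p = R p * T * R p := by
      conv_lhs => rw [← one_mul T, ← hR'.sum, Finset.sum_mul, Finset.sum_mul]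
      exact Finset.sum_eq_single_of_mem p hp fun b _ hb => e3 b p hb
    have h2 : R p * T = R p * T * R p := by
      conv_lhs => rw [← mul_one (R p * T), ← hR'.sum, Finset.mul_sum]
      exact Finset.sum_eq_single_of_mem p hp fun b _ hb => e3 p b (Ne.symm hb)
    rw [h1, ← h2]
  · rw [hR'.supp p hp, mul_zero, zero_mul]

/-- What commutes with all the Hodge-Tate cocharacters is in the span of the endomorphisms. -/
theorem IsGalG.com27 (G : IsGalG w Q S P Γ) (H : IsHW w Q S P) (hT : IsTateN S P Γ) (T : Matrix n n ℂ)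
    (h : ∀ σ S' R, IsHTs w Q S P Γ σ S' R → T * hR S' R = hR S' R * T) : T ∈ EC P := by
  have h1 : IsTateTensor Γ 1 1 (t11 T) := by
    refine G.gen 1 1 _ fun σ S' R hR' z hz => ?_
    have hc := fun p => hR'.toIsHTw.comm_of_hR27 (h σ S' R hR') p
    have e1 : (∑ p ∈ S', z ^ p • R p) * (∑ p ∈ S', z⁻¹ ^ p • R p) = 1 := by
      rw [Finset.sum_mul, ← hR'.sum]
      refine Finset.sum_congr rfl fun p hp => ?_
      rw [Finset.mul_sum, Finset.sum_eq_single_of_mem p hp]
      · rw [smul_mul_smul_comm, hR'.mul, if_pos rfl, ← mul_zpow, mul_inv_cancel₀ hz, _root_.one_zpow, one_smul]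
      · intro q _ hq
        rw [smul_mul_smul_comm, hR'.mul, if_neg (Ne.symm hq), smul_zero]
    have e2 : (∑ p ∈ S', z ^ p • R p) * T = T * ∑ p ∈ S', z ^ p • R p := by
      rw [Finset.sum_mul, Finset.mul_sum]
      refine Finset.sum_congr rfl fun p _ => ?_
      rw [smul_mul_assoc, mul_smul_comm, hc p]
    rw [slot11, e2, mul_assoc, e1, mul_one]
  obtain ⟨Γ', a1, a2, a3⟩ := h1
  refine G.toN.cent H hT Γ' a1 a2 T fun g hg => ?_
  have h2 := a3 g hg
  rw [slot11] at h2
  have h3 := t11_inj h2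
  have h4 : (g : Matrix n n ℂ) * T * ((g⁻¹ : GL n ℂ) : Matrix n n ℂ) * (g : Matrix n n ℂ) = T * (g : Matrix n n ℂ) := by
    rw [h3]
  rw [mul_assoc, ← Units.val_mul, inv_mul_cancel, Units.val_one, mul_one] at h4
  exact h4

end MH
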